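import Pool.Agent.Q96.ID.Stm

/-!
# Project ID (helper96), job AKG (helper214): the spaces `A_κ(Γ)`
-/

set_option autoImplicit false

open Cardinal Set Filter Topology

namespace Q214.ID.AKG

open Q96.ID

variable {𝕜 : Type} [RCLike 𝕜]

lemma apply_le {Γ : Type} (f : Linf 𝕜 Γ) (γ : Γ) : ‖f γ‖ ≤ ‖f‖ := lp.norm_apply_le_norm ENNReal.top_ne_zero f γ

/-- transport along a bijection -/
noncomputable def tr {Γ Γ' : Type} (e : Γ ≃ Γ') (f : Linf 𝕜 Γ) : Linf 𝕜 Γ' :=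
  ⟨fun γ => f (e.symm γ), memℓp_infty ⟨‖f‖, by
    rintro _ ⟨γ, rfl⟩
    exact apply_le f _⟩⟩

lemma tr_apply {Γ Γ' : Type} (e : Γ ≃ Γ') (f : Linf 𝕜 Γ) (γ : Γ') : tr e f γ = f (e.symm γ) := rfl

/-- the same as an operator -/
noncomputable def trL {Γ Γ' : Type} (e : Γ ≃ Γ') : Linf 𝕜 Γ →L[𝕜] Linf 𝕜 Γ' :=
  LinearMap.mkContinuous
    { toFun := tr e
      map_add' := by
        intro f g
        ext γ
        rfl
      map_smul' := by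
        intro c f
        ext γ
        rfl } 1 (by
    intro f
    rw [one_mul]
    exact lp.norm_le_of_forall_le (norm_nonneg _) fun γ => apply_le f _)


lemma tr_mem {κ : Cardinal.{0}} (hκ : ℵ₀ ≤ κ) {Γ Γ' : Type} (e : Γ ≃ Γ') {f : Linf 𝕜 Γ} (hf : f ∈ A 𝕜 κ hκ Γ) :
    tr e f ∈ A 𝕜 κ hκ Γ' := by
  intro ε hε
  have h1 : #{γ : Γ' // ε < ‖tr e f γ‖} = #{γ : Γ // ε < ‖f γ‖} :=
    Cardinal.mk_congr (e.symm.subtypeEquiv fun γ => Iff.rfl)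
  rw [h1]
  exact hf ε hε

theorem t_AKG : S_AKG := by
  intro 𝕜 _ κ hκ Γ Γ'
  refine ⟨?_, ?_, ?_⟩
  · rw [← closure_subset_iff_isClosed]
    intro f hf ε hε
    obtain ⟨g, hg, hfg⟩ := Metric.mem_closure_iff.1 hf (ε / 2) (half_pos hε)
    rw [dist_eq_norm] at hfg
    refine lt_of_le_of_lt ?_ (hg (ε / 2) (half_pos hε))
    refine mk_le_mk_of_subset ?_
    intro γ hγ
    have h1 : ε < ‖f γ‖ := hγ
    show ε / 2 < ‖g γ‖
    have h2 : ‖(f - g : Linf 𝕜 Γ) γ‖ ≤ ‖f - g‖ := apply_le _ _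
    have h3 : ‖f γ‖ ≤ ‖(f - g : Linf 𝕜 Γ) γ‖ + ‖g γ‖ := by
      have h4 : f γ = (f - g : Linf 𝕜 Γ) γ + g γ := by
        show f γ = (f γ - g γ) + g γ
        ring
      calc ‖f γ‖ = ‖(f - g : Linf 𝕜 Γ) γ + g γ‖ := by rw [← h4]
        _ ≤ _ := norm_add_le _ _
    linarith
  · rintro ⟨e⟩
    let T : A 𝕜 κ hκ Γ →L[𝕜] A 𝕜 κ hκ Γ' := ((trL e).comp (A 𝕜 κ hκ Γ).subtypeL).codRestrict _
      fun f => tr_mem hκ e f.2
    let S : A 𝕜 κ hκ Γ' →L[𝕜] A 𝕜 κ hκ Γ := ((trL e.symm).comp (A 𝕜 κ hκ Γ').subtypeL).codRestrict _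
      fun f => tr_mem hκ e.symm f.2
    refine ⟨ContinuousLinearEquiv.equivOfInverse T S ?_ ?_⟩
    · intro f
      apply Subtype.ext
      apply lp.ext
      funext γ
      show (f : Linf 𝕜 Γ) (e.symm (e.symm.symm γ)) = (f : Linf 𝕜 Γ) γ
      rw [Equiv.symm_symm, Equiv.symm_apply_apply]
    · intro f
      apply Subtype.ext
      apply lp.ext
      funext γ
      show (f : Linf 𝕜 Γ') (e.symm.symm (e.symm γ)) = (f : Linf 𝕜 Γ') γ
      rw [Equiv.symm_symm, Equiv.apply_symm_apply]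
  · intro hκ' hr f hf
    have h1 : #(⋃ n : ℕ, {γ : Γ | 1 / ((n : ℝ) + 1) < ‖f γ‖} : Set Γ) < κ := by
      rw [card_iUnion_lt_iff_forall_of_isRegular hr (by rw [mk_nat]; exact hκ')]
      intro n
      exact hf _ (by positivity)
    refine lt_of_le_of_lt (mk_le_mk_of_subset (s := {γ : Γ | f γ ≠ 0}) ?_) h1
    intro γ hγ
    have h2 : 0 < ‖f γ‖ := norm_pos_iff.2 hγ
    obtain ⟨n, hn⟩ := exists_nat_one_div_lt h2
    exact mem_iUnion.2 ⟨n, hn⟩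

end Q214.ID.AKG
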