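import Pool.Agent.Q96.ID.Stm

/-!
# Project ID (helper96), job ULIM (helper214): the limit along an ultrafilter
-/

set_option autoImplicit false

open Cardinal Set Filter Topology

namespace Q214.ID.ULIM

open Q96.ID

theorem t_ULIM : S_ULIM := by
  intro 𝕜 _ X q
  have hb : ∀ (f : Linf 𝕜 X) (x : X), ‖f x‖ ≤ ‖f‖ := fun f x => lp.norm_apply_le_norm ENNReal.top_ne_zero f x
  have hex : ∀ f : Linf 𝕜 X, ∃ a : 𝕜, a ∈ Metric.closedBall (0 : 𝕜) ‖f‖ ∧
      Tendsto (fun x => f x) (q : Filter X) (𝓝 a) := by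
    intro f
    have h1 : ((q.map fun x => f x : Ultrafilter 𝕜) : Filter 𝕜) ≤ 𝓟 (Metric.closedBall (0 : 𝕜) ‖f‖) := by
      rw [le_principal_iff, Ultrafilter.coe_map, Filter.mem_map]
      refine Filter.univ_mem' fun x => ?_
      rw [mem_preimage, mem_closedBall_zero_iff]
      exact hb f x
    obtain ⟨a, ha, ha2⟩ := (isCompact_closedBall (0 : 𝕜) ‖f‖).ultrafilter_le_nhds _ h1
    exact ⟨a, ha, ha2⟩
  choose L hL hL2 using hex
  let M : Linf 𝕜 X →ₗ[𝕜] 𝕜 :=
    { toFun := L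
      map_add' := by
        intro f g
        have h1 : Tendsto (fun x => (f + g : Linf 𝕜 X) x) (q : Filter X) (𝓝 (L f + L g)) := (hL2 f).add (hL2 g)
        exact tendsto_nhds_unique (hL2 (f + g)) h1
      map_smul' := by
        intro c f
        have h1 : Tendsto (fun x => (c • f : Linf 𝕜 X) x) (q : Filter X) (𝓝 (c * L f)) := (hL2 f).const_mul c
        exact tendsto_nhds_unique (hL2 (c • f)) h1 }
  have hM : ∀ f, ‖M f‖ ≤ 1 * ‖f‖ := fun f => by
    rw [one_mul]
    exact mem_closedBall_zero_iff.1 (hL f)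
  refine ⟨M.mkContinuous 1 hM, fun f => hL2 f, fun f => ?_⟩
  have := hM f
  rw [one_mul] at this
  exact this

end Q214.ID.ULIM
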